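import Pool.Agent.W920.FD.All

set_option autoImplicit false

/-!
# The parts of the library used
-/

namespace Pool.Agent.TH71.PG

open Pool.Agent.NPC Pool.Agent.H558R2 Pool.Agent.H622R3.SM Pool.Agent.W920.FC Pool.Agent.W920.FD

theorem lBND : S_BND := t_TT.1
theorem lBATCH : S_BATCH := t_TT.2.1
theorem lITER : S_ITER := t_TT.2.2.1
theorem lMONO : S_MONO := t_TT.2.2.2
theorem lOUT : S_OUT := t_OUT.1
theorem lCTRL : S_CTRL := t_OUT.2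
theorem lLIN : S_LIN := t_LINPOLYB.1
theorem lPP3 : S_PP3 := t_PP34.1
theorem lPP4 : S_PP4 := t_PP34.2
theorem lKER : S_KER := t_KERSTEP.1
theorem lSTEP : S_STEP := t_KERSTEP.2
theorem lORD2 : W920.FC.S_ORD2 :=
  ⟨(t_ORD2A t_ORD1).1, t_ORD2B t_ORD1, (t_ORD2A t_ORD1).2⟩
theorem lEQR : S_EQR := t_EQR t_FORM
theorem lSZ1 : S_SZ1 := t_SZ1 t_FORM
theorem lLEN : W920.FD.S_LEN := t_LEN t_FORM
theorem lHVF : S_HVF := (t_HVFR t_FORD lEQR lSZ1 lLEN).1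
theorem lHVR : S_HVR := (t_HVFR t_FORD lEQR lSZ1 lLEN).2
theorem lHVP : S_HVP := t_HVP t_ORD1 lORD2 t_FORD lEQR t_EQM lSZ1 t_SZ2 t_SZ3 t_SZ4 lLEN
theorem lSDA : S_SDA := t_SDA t_DIR
theorem lBD : W920.FD.S_BD := t_BD lSDA lLIN
theorem lFN : W920.FD.S_FN := t_FN lSDA lBD lLIN
theorem lSTGS : S_STGS := t_STGS lBND lBATCH lITER lMONO lHVF lLIN t_CMP t_BIS lFN
theorem lGD : S_GD := t_GD t_FT
theorem lP3 : S_P3 := t_P3 lBND lBATCH lMONO lHVR (t_LD lLIN) t_SORT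
theorem lPERC : S_PERC := t_PERC t_PROJ lSTEP
theorem lNX : S_NX := t_NX lKER lPERC
theorem lRD : S_RD := t_RD lBND lBATCH lITER lMONO lHVP lKER lPERC
theorem lP4 : S_P4 := t_P4 lBND lITER lMONO lRD lNX t_I0
theorem lPP5 : S_PP5 := t_PP5 lPP3 lPP4
theorem lQFIN : S_QFIN := t_QFIN lPP3 lPP4 lPP5
theorem lQSTG : S_QSTG := t_QSTG lOUT t_PT t_PTITER t_QF lPP3 lPP4 lQFIN
theorem lQS : S_QS := t_QS lOUT t_PT t_PTITER lBD lQSTG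
theorem lQ3 : S_Q3 := t_Q3 t_PT t_QF lPP3 lPP4
theorem lQ4 : S_Q4 := t_Q4 lOUT t_PT t_PTITER (t_QP t_QF) (t_PU4 lPP4)

end Pool.Agent.TH71.PG
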