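import Pool.Agent.TH71.PG.Defs
import Pool.Agent.W920.FD.T_QV

set_option autoImplicit false

/-!
# Polynomial time: the vector of the products and the final phase
-/

namespace Pool.Agent.TH71.PG

open Pool.Agent.NPC Pool.Agent.H558R2 Pool.Agent.H622R3.SM Pool.Agent.W920.FC Pool.Agent.W920.FD

namespace TPV

variable {α : Type} [TEnc α]

attribute [local fun_prop] TQV.pInstr Poly.range_length

theorem pProdStep {R : α → List ℕ} {L : α → List (List Reg)} (hR : Poly R) (hL : Poly L) :
    Poly (fun a => (L a).zipIdx.flatMap fun p =>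
      (⟨Op.add, [31, p.2, 0], [2], [3]⟩ : Instr) ::
      (R a).map fun t =>
        (⟨Op.mul, [31, p.2, t + 1], [31, p.2, t], p.1.getD t [2]⟩ : Instr)) := by
  fun_prop

theorem pProd {T : α → ℕ} {L : α → List (List Reg)} (hT : UPoly T) (hL : Poly L) :
    Poly (fun a => prodP (T a) (L a)) := pProdStep hT.range hL

theorem pVL {T : α → ℕ} {L : α → List (List Reg)} (hT : UPoly T) (hL : Poly L) :
    Poly (fun a => VL (T a) (L a)) := by
  have h1 := pProd hT hL
  have h2 : Poly (fun a => List.range (L a).length) := (UPoly.length hL).range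
  have h3 : Poly T := UPoly.toPoly hT
  unfold VL
  refine Poly.pair h1 ?_
  fun_prop

end TPV

end Pool.Agent.TH71.PG
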