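import Pool.Agent.TH71.PG.Defs
import Pool.Agent.W920.FD.T_V1ORD
import Pool.Agent.W920.FD.T_V1EQ
import Pool.Agent.W920.FD.T_V1SZ
import Pool.Agent.W920.FD.T_V1LEN
import Pool.Agent.W920.FD.T_VOK1

set_option autoImplicit false

/-!
# The vector of the products is fine
-/

namespace Pool.Agent.TH71.PG

open Pool.Agent.NPC Pool.Agent.H558R2 Pool.Agent.H622R3.SM Pool.Agent.W920.FC Pool.Agent.W920.FD

namespace TVL

open TV1ORD

theorem getD_base {e : List Reg} (he : ∀ r ∈ e, r ∈ baseReg) (t : ℕ) : e.getD t [2] ∈ baseReg := by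
  by_cases h : t < e.length
  · rw [List.getD_eq_getElem _ _ h]
    exact he _ (List.getElem_mem h)
  · rw [List.getD_eq_default _ _ (by omega)]
    exact b2

theorem lok_getD {L : List (List Reg)} (hL : LOK L) (l : ℕ) : ∀ r ∈ L.getD l [], r ∈ baseReg := by
  by_cases h : l < L.length
  · rw [List.getD_eq_getElem _ _ h]
    exact hL _ (List.getElem_mem h)
  · rw [List.getD_eq_default _ _ (by omega)]
    simp

/-- a block of the program of the products -/
def blk (T : ℕ) (L : List (List Reg)) (l : ℕ) : List Instr :=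
  (⟨Op.add, [31, l, 0], [2], [3]⟩ : Instr) ::
    (List.range T).map fun t =>
      (⟨Op.mul, [31, l, t + 1], [31, l, t], (L.getD l []).getD t [2]⟩ : Instr)

theorem prod_eq (T : ℕ) (L : List (List Reg)) :
    prodP T L = (List.range L.length).flatMap (blk T L) := by
  unfold prodP
  rw [zipIdx_eq _ []]
  rfl

theorem wr_blk (T : ℕ) (L : List (List Reg)) (l : ℕ) (r : Reg) :
    r ∈ wr (blk T L l) ↔ ∃ t ≤ T, r = [31, l, t] := by
  unfold blk
  rw [wr_cons, map_range_eq]
  simp only [Set.mem_union, Set.mem_singleton_iff, mem_wr_range]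
  constructor
  · rintro (h | ⟨s, hs, h⟩)
    · exact ⟨0, by omega, h⟩
    · refine ⟨s + 1, by omega, ?_⟩
      simpa [mem_wr, eq_comm] using h
  · rintro ⟨s, hs, h⟩
    rcases s with _ | s
    · exact Or.inl h
    · exact Or.inr ⟨s, by omega, by simpa [mem_wr, eq_comm] using h⟩

theorem ord_prod (T : ℕ) (L : List (List Reg)) (hL : LOK L) : Ord baseReg (prodP T L) := by
  rw [prod_eq]
  refine ord_range _ _ _ fun l hl => ?_
  have hS : ∀ l t, ([31, l, t] : Reg) ∉ baseReg := by
    intro l t h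
    simp [baseReg] at h
  have hX : ∀ t, ([31, l, t] : Reg) ∉ {r | ∃ j < l, r ∈ wr (blk T L j)} := by
    intro t h
    obtain ⟨j, hj, h⟩ := h
    rw [wr_blk] at h
    obtain ⟨t, ht, h⟩ := h
    simp at h
    omega
  unfold blk
  rw [ord_cons]
  refine ⟨Or.inl b2, Or.inl b3, ?_, ?_⟩
  · rintro (h | h)
    · exact hS _ _ h
    · exact hX _ h
  · rw [map_range_eq]
    refine ord_range _ _ _ fun t ht => ?_
    rw [ord_cons]
    refine ⟨?_, Or.inl (Or.inl (Or.inl (getD_base (lok_getD hL l) t))), ?_, trivial⟩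
    · rcases t with _ | t
      · exact Or.inl (Or.inr rfl)
      · exact Or.inr ⟨t, by omega, by simp [mem_wr]⟩
    · rintro (((h | h) | h) | h)
      · exact hS _ _ h
      · exact hX _ h
      · simp at h
      · obtain ⟨j, hj, h⟩ := h
        simp [mem_wr] at h
        omega

theorem vu_base (g : Reg → ℝ) (L : List (List Reg)) (r : Reg) (hr : r ∈ baseReg) :
    vu g L r = g r := by
  have hr' : r.headD 0 < 4 := hr
  unfold vu
  split
  · simp at hr'
  · rfl

theorem vu_31 (g : Reg → ℝ) (L : List (List Reg)) (l t : ℕ) :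
    vu g L [31, l, t] = pv g t (L.getD l []) := rfl

theorem eqns (g : Reg → ℝ) (hg : Base g) (T : ℕ) (L : List (List Reg)) (hL : LOK L) :
    ∀ I ∈ prodP T L, Eqn (vu g L) I := by
  intro I hI
  rw [prod_eq, List.mem_flatMap] at hI
  obtain ⟨l, -, hI⟩ := hI
  unfold blk at hI
  rw [List.mem_cons, List.mem_map] at hI
  rcases hI with rfl | ⟨t, -, rfl⟩
  · apply TV1EQ.eqn_add
    rw [vu_31, vu_base g L _ b2, vu_base g L _ b3, hg.1, hg.2]
    simp [pv]
  · apply TV1EQ.eqn_mul
    rw [vu_31, vu_31, vu_base g L _ (getD_base (lok_getD hL l) t)]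
    unfold pv
    rw [Finset.prod_range_succ]

theorem iq_pv {D lam : ℕ} {g : Reg → ℝ}
    (h : ∀ r ∈ baseReg, ∃ z : ℤ, z.natAbs ≤ 2 ^ lam ∧ g r * D = z) (t : ℕ) (e : List Reg)
    (he : ∀ r ∈ e, r ∈ baseReg) : TV1SZ.IQ D lam t 1 (pv g t e) := by
  have := TV1SZ.iq_prod (D := D) (lam := lam) (E := 1) (X := 1) t (fun i => g (e.getD i [2]))
    (fun i _ => TV1SZ.base_iq h _ (getD_base he i))
  rw [mul_one, one_pow] at this
  exact this

end TVL

open TVL in
/-- The vector of the products is fine. -/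
theorem t_VL (pB : Polynomial ℕ) : ∃ q : Polynomial ℕ, ∀ (S : ℕ) (g : Reg → ℝ) (T : ℕ)
    (L : List (List Reg)), Base g → T ≤ pB.eval S → L.length ≤ pB.eval S → 1 ≤ L.length → LOK L →
    VOK q S g (VL T L) (wl g T L) := by
  refine ⟨pB * (pB + 1) + pB + Polynomial.X * pB, ?_⟩
  intro S g T L hg hT hN hN1 hL
  have ev : ∀ x, (pB * (pB + 1) + pB + Polynomial.X * pB).eval x =
      pB.eval x * (pB.eval x + 1) + pB.eval x + x * pB.eval x := by
    intro x
    simp
  have hlen : (VL T L).2.length = L.length := by simp [VL]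
  have hpow : ∀ lam, lam * T ≤ (pB * (pB + 1) + pB + Polynomial.X * pB).eval (S + lam) := by
    intro lam
    rw [ev]
    have h1 : T ≤ pB.eval (S + lam) := hT.trans (eval_mono pB (by omega))
    have h2 : lam * T ≤ (S + lam) * pB.eval (S + lam) := Nat.mul_le_mul (by omega) h1
    omega
  refine ⟨ord_prod T L hL, ?_, ?_, ?_, ?_, ?_, ⟨vu g L, fun r hr => vu_base g L r hr, ?_, ?_⟩, ?_⟩
  · intro r hr
    change r ∈ wr (prodP T L) at hr
    rw [prod_eq, TV1ORD.mem_wr_range] at hr
    obtain ⟨l, -, hr⟩ := hr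
    rw [wr_blk] at hr
    obtain ⟨t, -, rfl⟩ := hr
    exact Or.inr (Or.inl rfl)
  · intro r hr
    right
    change r ∈ (List.range L.length).map (fun l => ([31, l, T] : Reg)) at hr
    rw [List.mem_map] at hr
    obtain ⟨l, hl, rfl⟩ := hr
    change [31, l, T] ∈ wr (prodP T L)
    rw [prod_eq, TV1ORD.mem_wr_range]
    exact ⟨l, List.mem_range.1 hl, (wr_blk _ _ _ _).2 ⟨T, le_rfl, rfl⟩⟩
  · change (prodP T L).length ≤ _
    rw [prod_eq, ev]
    refine (TV1LEN.len_fr L.length _ (T + 1) (fun a => by simp [blk])).trans ?_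
    have := Nat.mul_le_mul hN (Nat.succ_le_succ hT)
    simp only [Nat.succ_eq_add_one] at this
    omega
  · rw [hlen, ev]
    omega
  · rw [hlen]
    exact hN1
  · intro I hI
    refine ⟨eqns g hg T L hL I hI, ?_⟩
    intro lam hlam
    obtain ⟨D, hD1, hD2, hD3⟩ := hlam
    change I ∈ prodP T L at hI
    rw [prod_eq, List.mem_flatMap] at hI
    obtain ⟨l, -, hI⟩ := hI
    have hdst : ∃ t ≤ T, I.dst = [31, l, t] := (wr_blk T L l I.dst).1 ⟨I, hI, rfl⟩
    obtain ⟨t, ht, hdst⟩ := hdst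
    rw [hdst, vu_31]
    refine TV1SZ.iq_qb hD1 hD2 le_rfl (TV1SZ.iq_pad hD2 (iq_pv hD3 t _ (lok_getD hL l)) ht) ?_
    rw [one_mul]
    exact Nat.pow_le_pow_right (by norm_num) (hpow lam)
  · intro l hl
    rw [hlen] at hl
    have e : ((List.range L.length).map fun l => ([31, l, T] : Reg)).getD l [3] = [31, l, T] := by
      rw [List.getD_eq_getElem _ _ (by simpa using hl)]
      simp
    change vu g L (((List.range L.length).map fun l => ([31, l, T] : Reg)).getD l [3]) = _
    rw [e]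
    rfl
  · intro lam hlam
    obtain ⟨D, hD1, hD2, hD3⟩ := hlam
    refine ⟨D ^ T, Nat.one_le_pow _ _ hD1, ?_, ?_⟩
    · refine le_trans (Nat.pow_le_pow_left hD2 T) ?_
      rw [← pow_mul]
      exact Nat.pow_le_pow_right (by norm_num) (hpow lam)
    · intro l _
      obtain ⟨z, hz, hz'⟩ := iq_pv hD3 T _ (lok_getD hL l)
      rw [one_mul] at hz
      exact ⟨z, hz.trans (Nat.pow_le_pow_right (by norm_num) (hpow lam)), hz'⟩

end Pool.Agent.TH71.PG
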