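import Pool.Agent.TH71.PG.Lib
import Pool.Agent.TH71.PG.VLok
import Pool.Agent.TH71.PG.PolyVL
import Pool.Agent.TH71.PG.BF

set_option autoImplicit false

/-!
# The final phase: correctness, polynomial time, and the assembly
-/

namespace Pool.Agent.TH71.PG

open Pool.Agent.NPC Pool.Agent.H558R2 Pool.Agent.H622R3.SM Pool.Agent.W920.FC Pool.Agent.W920.FD

theorem VL_len (T : ℕ) (L : List (List Reg)) : (VL T L).2.length = L.length := by simp [VL]

/-- The polynomial bounding all parameters. -/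
theorem par_bound (pB : Polynomial ℕ) : ∃ q : Polynomial ℕ, ∀ m n h N : ℕ,
    h ≤ pB.eval (m + n) → N ≤ pB.eval (m + n) →
    pE h N ≤ q.eval (m + n) ∧ pQ h N ≤ q.eval (m + n) ∧ (pP h N + 1) * N ≤ q.eval (m + n) ∧
    pR h N m n ≤ q.eval (m + n) ∧ N ≤ q.eval (m + n) := by
  obtain ⟨qK, hK⟩ := TPB.pb_K
  set e : Polynomial ℕ := pB + 2 * pB + 4 with he
  set p : Polynomial ℕ := (pB + 1) * e with hp
  set r : Polynomial ℕ := pB + p + 3 with hr
  refine ⟨e + (r + ((p + 1) * pB + ((qK * (pB * (pB * (2 * r + 1))) + 1) + pB))), ?_⟩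
  intro m n h N hh hN
  have e1 : pE h N ≤ e.eval (m + n) := by
    simp only [he, Polynomial.eval_add, Polynomial.eval_mul, Polynomial.eval_ofNat]
    unfold pE
    omega
  have e2 : pP h N ≤ p.eval (m + n) := by
    simp only [hp, Polynomial.eval_mul, Polynomial.eval_add, Polynomial.eval_one]
    exact Nat.mul_le_mul (by omega) e1
  have e3 : pQ h N ≤ r.eval (m + n) := by
    simp only [hr, Polynomial.eval_add, Polynomial.eval_ofNat]
    unfold pQ
    omega
  have e4 : (pP h N + 1) * N ≤ ((p + 1) * pB).eval (m + n) := by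
    simp only [Polynomial.eval_mul, Polynomial.eval_add, Polynomial.eval_one]
    exact Nat.mul_le_mul (by omega) hN
  have e5 : pR h N m n ≤ (qK * (pB * (pB * (2 * r + 1))) + 1).eval (m + n) := by
    simp only [Polynomial.eval_mul, Polynomial.eval_add, Polynomial.eval_one,
      Polynomial.eval_ofNat]
    unfold pR pZ
    refine Nat.succ_le_succ (Nat.mul_le_mul (hK m n) (Nat.mul_le_mul hN
      (Nat.mul_le_mul hN (by omega))))
  simp only [Polynomial.eval_add] at e1 e3 e4 e5 ⊢
  omega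

/-- The final phase. -/
theorem runTL (pB : Polynomial ℕ) : ∃ q : Polynomial ℕ, ∀ (m n T h : ℕ) (g : Reg → ℝ)
    (L : List (List Reg)), Base g → T ≤ pB.eval (m + n) → h ≤ pB.eval (m + n) →
    L.length ≤ pB.eval (m + n) → 1 ≤ L.length → LOK L → wl g T L 0 = 1 →
    ∃ ans : Bool, Runs g (Gd q (m + n) g) (TL m n T h L) ans (q.eval (m + n)) ∧
      (ans = true → SolE m n g) ∧
      ((∀ Lad, W920.FD.LadG L.length h (wl g T L) Lad →
        ∃ x, W920.FD.SolB L.length m n g (wl g T L) Lad x) → ans = true) := by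
  obtain ⟨qv, hv⟩ := t_VL pB
  obtain ⟨qb, hb⟩ := par_bound pB
  obtain ⟨q2, h2⟩ := lSTGS qv qb
  obtain ⟨q3, h3⟩ := lP3 qv qb
  obtain ⟨q4, h4⟩ := lP4 qv (2 * qb + 2 * qb + 1)
  refine ⟨q2 + (q3 + q4), ?_⟩
  intro m n T h g L hg hT hh hN hN1 hL hw0
  have e2 : ∀ x, q2.eval x ≤ (q2 + (q3 + q4)).eval x := fun x => by
    simp only [Polynomial.eval_add]; omega
  have e3 : ∀ x, q3.eval x ≤ (q2 + (q3 + q4)).eval x := fun x => by
    simp only [Polynomial.eval_add]; omega
  have e4 : ∀ x, q4.eval x ≤ (q2 + (q3 + q4)).eval x := fun x => by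
    simp only [Polynomial.eval_add]; omega
  obtain ⟨b1, b2, b3, b4, b5⟩ := hb m n h L.length hh hN
  have hvok := hv (m + n) g T L hg hT hN hN1 hL
  have hlen := VL_len T L
  obtain ⟨s, hinv, r2⟩ := h2 (m + n) g (VL T L) (wl g T L) (pE h L.length) h L.length hg hvok
    (by rw [hlen]; exact le_rfl) b1 b5
  rw [hlen] at hinv
  have hG2 := lGD _ _ _ _ _ hinv
  have hG2' : W920.FD.Good2 (VL T L).2.length h (pP h L.length)
      ((pP h L.length + 1) * L.length) (wl g T L) s.1 := by
    rw [hlen]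
    exact hG2
  obtain ⟨Lad, hG3, r3⟩ := h3 (m + n) g (VL T L) (wl g T L) h (pP h L.length)
    ((pP h L.length + 1) * L.length) (pQ h L.length) s.1 hg hvok hG2' rfl b3 b2
  have hZ : (VL T L).2.length * ((VL T L).2.length * (2 * pQ h L.length + 1)) =
      pZ h L.length := by
    rw [hlen]; rfl
  rw [hZ] at hG3
  obtain ⟨ans, r4, hs, hc⟩ := h4 m n g (VL T L) (wl g T L) h
    (pZ h L.length) (2 * ((pP h L.length + 1) * L.length) + 2 * pQ h L.length + 1)
    (pR h L.length m n) Lad hg hvok hw0 hG3 (by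
      simp only [Polynomial.eval_add, Polynomial.eval_mul, Polynomial.eval_ofNat,
        Polynomial.eval_one]
      omega) rfl (by
      simp only [Polynomial.eval_add, Polynomial.eval_mul, Polynomial.eval_ofNat,
        Polynomial.eval_one]
      omega)
  have r2' := lMONO _ g _ _ _ _ _ _ (TFINAL.gd_mono (S := m + n) (g := g) e2) le_rfl r2
  have r3' := lMONO _ g _ _ _ _ _ _ (TFINAL.gd_mono (S := m + n) (g := g) e3) le_rfl r3
  have r4' := lMONO _ g _ _ _ _ _ _ (TFINAL.gd_mono (S := m + n) (g := g) e4) le_rfl r4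
  refine ⟨ans, ?_, hs, ?_⟩
  · have r : Runs g (Gd (q2 + (q3 + q4)) (m + n) g) (TL m n T h L) ans
        (q2.eval (m + n) + (q3.eval (m + n) + q4.eval (m + n))) := by
      unfold TL
      refine lBND _ _ g _ _ _ s ans _ _ r2' ?_
      exact lBND _ _ g _ _ _ Lad ans _ _ r3' r4'
    refine lMONO _ g _ _ _ _ _ _ (fun v hv => hv) ?_ r
    simp only [Polynomial.eval_add]
    exact le_rfl
  · intro hS
    apply hc
    have hL := hG3.2.2.2.2
    rw [hlen] at hL ⊢
    exact hS Lad hL

/-- The final phase, for the given instance. -/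
theorem runTL' (pB : Polynomial ℕ) : ∃ q : Polynomial ℕ, ∀ (m n T h : ℕ)
    (A : Matrix (Fin m) (Fin n) ℝ) (b : Fin m → ℝ)
    (L : List (List Reg)), T ≤ pB.eval (m + n) → h ≤ pB.eval (m + n) →
    L.length ≤ pB.eval (m + n) → 1 ≤ L.length → LOK L → wl (start A b) T L 0 = 1 →
    RatioSmall L.length h m n A b (wl (start A b) T L) →
    ∃ ans : Bool, Runs (start A b) (Gd q (m + n) (start A b)) (TL m n T h L) ans
      (q.eval (m + n)) ∧ (ans = true ↔ ∃ x : Fin n → ℝ, b ≤ A.mulVec x) := by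
  obtain ⟨q, hq⟩ := runTL pB
  refine ⟨q, ?_⟩
  intro m n T h A b L h1 h2 h3 h4 h5 h6 h7
  obtain ⟨ans, r, hs, hc⟩ := hq m n T h (start A b) L (TFINAL.base_start A b) h1 h2 h3 h4 h5 h6
  refine ⟨ans, r, ?_⟩
  constructor
  · intro ha
    exact (t_FEAS m n A b).1 (hs ha)
  · intro hf
    exact hc fun Lad hLad => t_BFR t_CERT L.length h m n A b _ Lad h7 hLad hf

/-! ### Polynomial time -/

section

variable {α : Type} [TEnc α]

theorem u_pE {h N : α → ℕ} (hh : UPoly h) (hN : UPoly N) : UPoly (fun a => pE (h a) (N a)) :=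
  UPoly.add (UPoly.add hh (UPoly.mul (UPoly.const 2) hN)) (UPoly.const 4)

theorem u_pP {h N : α → ℕ} (hh : UPoly h) (hN : UPoly N) : UPoly (fun a => pP (h a) (N a)) :=
  UPoly.mul (UPoly.add hN (UPoly.const 1)) (u_pE hh hN)

theorem u_pQ {h N : α → ℕ} (hh : UPoly h) (hN : UPoly N) : UPoly (fun a => pQ (h a) (N a)) :=
  UPoly.add (UPoly.add hh (u_pP hh hN)) (UPoly.const 3)

theorem u_pZ {h N : α → ℕ} (hh : UPoly h) (hN : UPoly N) : UPoly (fun a => pZ (h a) (N a)) :=
  UPoly.mul hN (UPoly.mul hN (UPoly.add (UPoly.mul (UPoly.const 2) (u_pQ hh hN))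
    (UPoly.const 1)))

theorem u_pR {h N : α → ℕ} {U W : α → List Unit} (hh : UPoly h) (hN : UPoly N) (hU : Poly U)
    (hW : Poly W) : UPoly (fun a => pR (h a) (N a) (U a).length (W a).length) :=
  UPoly.add (UPoly.mul (UPoly.add (UPoly.add (UPoly.length hU)
    (UPoly.add (UPoly.length hW) (UPoly.length hW))) (UPoly.const 1))
    (u_pZ hh hN)) (UPoly.const 1)

/-- The final phase in polynomial time. -/
theorem ptTL {U W : α → List Unit} {T h : α → ℕ} {L : α → List (List Reg)} (hU : Poly U)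
    (hW : Poly W) (hT : UPoly T) (hh : UPoly h) (hL : Poly L) :
    PT (fun a => TL (U a).length (W a).length (T a) (h a) (L a)) := by
  have hN : UPoly (fun a => (L a).length) := UPoly.length hL
  have hV := TPV.pVL hT hL
  refine TFINAL.bndPT t_PT (fun a => stages (VL (T a) (L a)) (pE (h a) (L a).length) (L a).length)
    (fun a s => bnd (T3 (VL (T a) (L a)) (pQ (h a) (L a).length) s.1) fun Lad =>
      T4 (VL (T a) (L a)) (U a).length (W a).length
        (pR (h a) (L a).length (U a).length (W a).length) Lad) _ (fun a => rfl) ?_ ?_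
  · refine lQS α (fun a => VL (T a) (L a)) _ _ hV (u_pE hh hN) hN ?_
    intro a
    rw [VL_len]
    unfold pE
    omega
  · have c1 : Poly (fun p : α × S2 => p.1) := Poly.fst Poly.id
    have hV' : Poly (fun p : α × S2 => VL (T p.1) (L p.1)) := hV.comp c1
    refine TFINAL.bndPT t_PT (fun p : α × S2 => T3 (VL (T p.1) (L p.1))
        (pQ (h p.1) (L p.1).length) p.2.1)
      (fun p Lad => T4 (VL (T p.1) (L p.1)) (U p.1).length (W p.1).length
        (pR (h p.1) (L p.1).length (U p.1).length (W p.1).length) Lad) _ (fun a => rfl) ?_ ?_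
    · exact lQ3 (α × S2) _ _ _ hV' ((u_pQ hh hN).comp c1) (Poly.fst (Poly.snd Poly.id))
    · have c2 : Poly (fun p : (α × S2) × List (List ℤ × List ℤ) => p.1.1) :=
        Poly.fst (Poly.fst Poly.id)
      exact lQ4 ((α × S2) × List (List ℤ × List ℤ)) (fun p => U p.1.1) (fun p => W p.1.1)
        (fun p => VL (T p.1.1) (L p.1.1))
        (fun p => pR (h p.1.1) (L p.1.1).length (U p.1.1).length (W p.1.1).length)
        (fun p => p.2) (hU.comp c2) (hW.comp c2) (hV.comp c2) ((u_pR hh hN hU hW).comp c2)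
        (Poly.snd Poly.id)

end

/-- The assembly. -/
theorem assemble (C : ∀ m n : ℕ, Matrix (Fin m) (Fin n) ℝ → (Fin m → ℝ) → Prop)
    (TA : ℕ → ℕ → TT Bool)
    (hPT : PT (fun p : List Unit × List Unit => TA p.1.length p.2.length))
    (hrun : ∃ q : Polynomial ℕ, ∀ m n : ℕ, 1 ≤ m → 1 ≤ n → ∀ (A : Matrix (Fin m) (Fin n) ℝ)
      (b : Fin m → ℝ), C m n A b → ∃ ans : Bool,
        Runs (start A b) (Gd q (m + n) (start A b)) (TA m n) ans (q.eval (m + n)) ∧
        (ans = true ↔ ∃ x : Fin n → ℝ, b ≤ A.mulVec x)) :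
    PolyControl (algOf TA) ∧ OracleFree (algOf TA) ∧ StronglyPolynomialOn C (algOf TA) := by
  refine ⟨lCTRL TA hPT, ?_, ?_⟩
  · intro m n h w
    unfold algOf
    cases TA m n h <;> simp
  · obtain ⟨qs, hq⟩ := hrun
    refine ⟨qs + 1 + (2 * qs.comp (3 * Polynomial.X) + 3), ?_⟩
    intro m n hm hn A b hC
    obtain ⟨ans, r, hiff⟩ := hq m n hm hn A b hC
    have hfuel : qs.eval (m + n) + 1 ≤
        (qs + 1 + (2 * qs.comp (3 * Polynomial.X) + 3)).eval (m + n) := by
      simp only [Polynomial.eval_add, Polynomial.eval_one]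
      omega
    obtain ⟨nums, steps, hrun, hsteps, hG⟩ := t_RUN TA m n (start A b) _ ans _ r ∅ _ hfuel
    refine ⟨ans, nums, steps, hrun, hiff, by omega, ?_⟩
    intro A' b' hA hb' v hv'
    have hA2 : (fun i j => ((A' i j : ℚ) : ℝ)) = (A : Fin m → Fin n → ℝ) := by
      funext i j
      exact hA i j
    have hb2 : (fun i => ((b' i : ℚ) : ℝ)) = b := by
      funext i
      exact hb' i
    have hRB := t_BITS.2 m n A' b'
    rw [hA2, hb2] at hRB
    have hQ := hG v hv' _ hRB
    obtain ⟨q, hq, hq2⟩ := t_BITS.1 _ _ hQ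
    refine ⟨q, hq, hq2.trans ?_⟩
    have hL := TFINAL.le_inputLength hm A' b'
    have hmono := eval_mono qs (show m + n + 2 * inputLength A' b' ≤ 3 * inputLength A' b' by
      omega)
    simp only [Polynomial.eval_add, Polynomial.eval_mul, Polynomial.eval_comp,
      Polynomial.eval_X, Polynomial.eval_ofNat]
    omega

end Pool.Agent.TH71.PG
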