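import Pool.Agent.TH71.PG.SF
import Pool.Agent.TH71.PG.PolyVL

set_option autoImplicit false

/-!
# Products of a fixed number of base registers
-/

namespace Pool.Agent.TH71.PG

open Pool.Agent.NPC Pool.Agent.H558R2 Pool.Agent.H622R3.SM Pool.Agent.W920.FC Pool.Agent.W920.FD

/-- The constant `1`, the entries of the matrix, and of the right-hand side. -/
def bl (m n : ℕ) : List Reg :=
  [2] :: ((poss m n).map (fun p => [0, p.1, p.2]) ++ (List.range m).map fun i => [1, i])

/-- All lists of `κ` elements of `R`. -/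
def allL (R : List Reg) : ℕ → List (List Reg)
  | 0 => [[]]
  | κ + 1 => R.flatMap fun r => (allL R κ).map fun e => r :: e

theorem mem_allL (R : List Reg) : ∀ (κ : ℕ) (e : List Reg),
    e ∈ allL R κ ↔ e.length = κ ∧ ∀ r ∈ e, r ∈ R
  | 0, e => by
    constructor
    · intro h
      simp only [allL, List.mem_singleton] at h
      subst h
      simp
    · rintro ⟨h, -⟩
      rw [List.length_eq_zero_iff.1 h]
      simp [allL]
  | κ + 1, e => by
    simp only [allL, List.mem_flatMap, List.mem_map]
    constructor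
    · rintro ⟨r, hr, e', he', rfl⟩
      obtain ⟨h1, h2⟩ := (mem_allL R κ e').1 he'
      refine ⟨by simp [h1], ?_⟩
      intro x hx
      rcases List.mem_cons.1 hx with rfl | hx
      · exact hr
      · exact h2 x hx
    · rintro ⟨h1, h2⟩
      cases e with
      | nil => simp at h1
      | cons r e' =>
        exact ⟨r, h2 r (by simp), e', (mem_allL R κ e').2 ⟨by simpa using h1,
          fun x hx => h2 x (by simp [hx])⟩, rfl⟩

theorem length_allL (R : List Reg) : ∀ κ : ℕ, (allL R κ).length = R.length ^ κ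
  | 0 => rfl
  | κ + 1 => by
    unfold allL
    rw [List.length_flatMap]
    simp only [List.length_map, length_allL R κ, List.map_const', List.sum_replicate, smul_eq_mul]
    ring

theorem getD_allL_zero (r : Reg) (R : List Reg) : ∀ κ : ℕ,
    ∃ t, allL (r :: R) κ = List.replicate κ r :: t
  | 0 => ⟨[], rfl⟩
  | κ + 1 => by
    obtain ⟨t, ht⟩ := getD_allL_zero r R κ
    unfold allL
    rw [List.flatMap_cons, ht, List.map_cons, List.cons_append]
    exact ⟨_, rfl⟩

theorem bl_base (m n : ℕ) : ∀ r ∈ bl m n, r ∈ baseReg := by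
  intro r hr
  unfold bl at hr
  rw [List.mem_cons, List.mem_append, List.mem_map, List.mem_map] at hr
  rcases hr with rfl | ⟨p, -, rfl⟩ | ⟨i, -, rfl⟩ <;> simp [baseReg]

theorem allL_ok (R : List Reg) (hR : ∀ r ∈ R, r ∈ baseReg) (κ : ℕ) : LOK (allL R κ) := by
  intro e he r hr
  exact hR r (((mem_allL R κ e).1 he).2 r hr)

theorem length_bl (m n : ℕ) : (bl m n).length = 1 + (m * n + m) := by
  unfold bl
  rw [List.length_cons, List.length_append, List.length_map, List.length_map, List.length_range]
  have : (poss m n).length = m * n := by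
    unfold poss
    rw [List.length_flatMap]
    simp
  rw [this]
  omega

theorem entry_mem_bl {m n i j : ℕ} (hi : i < m) (hj : j < n) : [0, i, j] ∈ bl m n := by
  unfold bl
  rw [List.mem_cons, List.mem_append, List.mem_map]
  right
  left
  refine ⟨(i, j), ?_, rfl⟩
  unfold poss
  rw [List.mem_flatMap]
  exact ⟨i, List.mem_range.2 hi, List.mem_map.2 ⟨j, List.mem_range.2 hj, rfl⟩⟩

theorem rhs_mem_bl {m n i : ℕ} (hi : i < m) : [1, i] ∈ bl m n := by
  unfold bl
  rw [List.mem_cons, List.mem_append, List.mem_map, List.mem_map]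
  right
  right
  exact ⟨i, List.mem_range.2 hi, rfl⟩

theorem one_mem_bl (m n : ℕ) : [2] ∈ bl m n := by
  unfold bl
  exact List.mem_cons_self

/-- The value of a product. -/
theorem pv_eq {g : Reg → ℝ} (hg : g [2] = 1) (T : ℕ) : ∀ e : List Reg, e.length ≤ T →
    pv g T e = (e.map g).prod := by
  induction T with
  | zero =>
    intro e he
    have : e = [] := List.length_eq_zero_iff.1 (by omega)
    subst this
    simp [pv]
  | succ T ih =>
    intro e he
    unfold pv
    rw [Finset.prod_range_succ']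
    cases e with
    | nil =>
      have := ih [] (by simp)
      unfold pv at this
      simp only [List.getD_nil, List.map_nil, List.prod_nil] at this ⊢
      rw [this, hg, one_mul]
    | cons r e =>
      have := ih e (by simpa using he)
      unfold pv at this
      simp only [List.getD_cons_succ, List.getD_cons_zero, List.map_cons, List.prod_cons]
      rw [this, mul_comm]

/-- The products of `κ` registers in `R`. -/
def PA (g : Reg → ℝ) (R : List Reg) (κ : ℕ) : Set ℝ :=
  {p | ∃ e : List Reg, e.length = κ ∧ (∀ r ∈ e, r ∈ R) ∧ (e.map g).prod = p}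

theorem PA_one_mem (g : Reg → ℝ) (R : List Reg) : (1 : ℝ) ∈ PA g R 0 := ⟨[], rfl, by simp, by simp⟩

theorem PA_mul (g : Reg → ℝ) (R : List Reg) (i j : ℕ) : ∀ a ∈ PA g R i, ∀ b ∈ PA g R j,
    a * b ∈ PA g R (i + j) := by
  rintro a ⟨e, h1, h2, rfl⟩ b ⟨f, h3, h4, rfl⟩
  refine ⟨e ++ f, by simp [h1, h3], ?_, by simp⟩
  intro r hr
  rcases List.mem_append.1 hr with h | h
  · exact h2 r h
  · exact h4 r h

theorem PA_mono {g : Reg → ℝ} {R : List Reg} (hg : g [2] = 1) (h2 : [2] ∈ R) {i j : ℕ}
    (hij : i ≤ j) : PA g R i ⊆ PA g R j := by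
  rintro a ⟨e, he1, he2, rfl⟩
  refine ⟨e ++ List.replicate (j - i) [2], by simp [he1]; omega, ?_, by simp [hg]⟩
  intro r hr
  rcases List.mem_append.1 hr with h | h
  · exact he2 r h
  · rw [List.mem_replicate] at h
    rw [h.2]
    exact h2

theorem PA_reg {g : Reg → ℝ} {R : List Reg} {r : Reg} (h : r ∈ R) : g r ∈ PA g R 1 :=
  ⟨[r], rfl, by simpa using h, by simp⟩

theorem PA_one {g : Reg → ℝ} {R : List Reg} (hg : g [2] = 1) (h2 : [2] ∈ R) (κ : ℕ) :
    (1 : ℝ) ∈ PA g R κ := PA_mono hg h2 (Nat.zero_le κ) (PA_one_mem g R)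

/-- The products are coordinates of the vector. -/
theorem PA_vec {g : Reg → ℝ} (hg : g [2] = 1) (R : List Reg) (κ : ℕ) : ∀ p ∈ PA g R κ,
    ∃ l < (allL R κ).length, wl g κ (allL R κ) l = p := by
  rintro p ⟨e, h1, h2, rfl⟩
  obtain ⟨l, hl, he⟩ := List.getElem_of_mem ((mem_allL R κ e).2 ⟨h1, h2⟩)
  refine ⟨l, hl, ?_⟩
  unfold wl
  rw [List.getD_eq_getElem _ _ hl, he, pv_eq hg κ e h1.le]

/-! ### Polynomial time -/

section

variable {α : Type} [TEnc α]

theorem pAllStep {R : α → List Reg} {E : α → List (List Reg)} (hR : Poly R) (hE : Poly E) :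
    Poly (fun a => (R a).flatMap fun r => (E a).map fun e => r :: e) := by
  fun_prop

theorem pAllL {R : α → List Reg} (hR : Poly R) (κ : ℕ) : Poly (fun a => allL (R a) κ) := by
  induction κ with
  | zero => exact NPC.Poly.const _
  | succ κ ih => exact pAllStep hR ih

theorem pBl {U W : α → List Unit} (hU : Poly U) (hW : Poly W) :
    Poly (fun a => bl (U a).length (W a).length) := by
  have h1 := TQV.pPoss hU hW
  have h2 : Poly (fun a => List.range (U a).length) := (UPoly.length hU).range
  unfold bl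
  fun_prop

end

end Pool.Agent.TH71.PG
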