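import Pool.Agent.W920.FD.Stm

set_option autoImplicit false

/-!
# Vectors of products of base registers, and the final phase of the algorithm
-/

namespace Pool.Agent.TH71.PG

open Pool.Agent.NPC Pool.Agent.H558R2 Pool.Agent.H622R3.SM Pool.Agent.W920.FC Pool.Agent.W920.FD

/-- The products `[31, l, T]` of the registers in the `l`-th list, partial products `[31, l, t]`. -/
def prodP (T : ℕ) (L : List (List Reg)) : List Instr :=
  L.zipIdx.flatMap fun p =>
    (⟨Op.add, [31, p.2, 0], [2], [3]⟩ : Instr) ::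
      (List.range T).map fun t =>
        (⟨Op.mul, [31, p.2, t + 1], [31, p.2, t], p.1.getD t [2]⟩ : Instr)

/-- The vector of the products. -/
def VL (T : ℕ) (L : List (List Reg)) : VS :=
  (prodP T L, (List.range L.length).map fun l => [31, l, T])

/-- The value of a product. -/
noncomputable def pv (g : Reg → ℝ) (T : ℕ) (e : List Reg) : ℝ :=
  ∏ t ∈ Finset.range T, g (e.getD t [2])

/-- The values of the products. -/
noncomputable def wl (g : Reg → ℝ) (T : ℕ) (L : List (List Reg)) (l : ℕ) : ℝ := pv g T (L.getD l [])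

/-- All registers are base registers. -/
def LOK (L : List (List Reg)) : Prop := ∀ e ∈ L, ∀ r ∈ e, r ∈ baseReg

/-- The values of the registers. -/
noncomputable def vu (g : Reg → ℝ) (L : List (List Reg)) : Reg → ℝ
  | [31, l, t] => pv g t (L.getD l [])
  | r => g r

/-! ### The parameters -/

/-- The precision. -/
def pE (h N : ℕ) : ℕ := h + 2 * N + 4

/-- The number of digits. -/
def pP (h N : ℕ) : ℕ := (N + 1) * pE h N

/-- The exponents of the ladder. -/
def pQ (h N : ℕ) : ℕ := h + pP h N + 3

/-- The length of the ladder. -/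
def pZ (h N : ℕ) : ℕ := N * (N * (2 * pQ h N + 1))

/-- The number of rounds. -/
def pR (h N m n : ℕ) : ℕ := cK m n * pZ h N + 1

/-- The final phase, with the vector of the products. -/
def TL (m n T h : ℕ) (L : List (List Reg)) : TT Bool :=
  bnd (stages (VL T L) (pE h L.length) L.length) fun s =>
    bnd (T3 (VL T L) (pQ h L.length) s.1) fun Lad => T4 (VL T L) m n (pR h L.length m n) Lad

/-- The coordinates of the basic solutions are ratios of small forms. -/
def RatioSmall (N h m n : ℕ) (A : Matrix (Fin m) (Fin n) ℝ) (b : Fin m → ℝ) (w : ℕ → ℝ) : Prop :=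
  ∀ β : Fin m → Fin (m + (n + n)), dd (wmat A b) (fun j => some (β j)) ≠ 0 → ∀ j,
    dd (wmat A b) (Function.update (fun j => some (β j)) j none) ≠ 0 → ∃ y y' : ℕ → ℤ,
      ∑ l ∈ Finset.range N, (y l).natAbs ≤ 2 ^ h ∧ ∑ l ∈ Finset.range N, (y' l).natAbs ≤ 2 ^ h ∧
      ∑ l ∈ Finset.range N, (y l : ℝ) * w l ≠ 0 ∧ ∑ l ∈ Finset.range N, (y' l : ℝ) * w l ≠ 0 ∧
      |dd (wmat A b) (Function.update (fun j => some (β j)) j none)| /
        |dd (wmat A b) (fun j => some (β j))| =
      |∑ l ∈ Finset.range N, (y l : ℝ) * w l| / |∑ l ∈ Finset.range N, (y' l : ℝ) * w l|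

end Pool.Agent.TH71.PG
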