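import Pool.Agent.TH71.PG.Defs

set_option autoImplicit false

/-!
# Small integer combinations
-/

namespace Pool.Agent.TH71.PG

open Pool.Agent.NPC Pool.Agent.H558R2 Pool.Agent.H622R3.SM Pool.Agent.W920.FC Pool.Agent.W920.FD

/-- `SF P X v`: the number `v` is a sum of at most `X` numbers in `P` or `-P`. -/
inductive SF (P : Set ℝ) : ℕ → ℝ → Prop
  | zero : SF P 0 0
  | add {X : ℕ} {v p : ℝ} : SF P X v → p ∈ P → SF P (X + 1) (v + p)
  | sub {X : ℕ} {v p : ℝ} : SF P X v → p ∈ P → SF P (X + 1) (v - p)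
  | pad {X : ℕ} {v : ℝ} : SF P X v → SF P (X + 1) v

namespace SF

variable {P Q R : Set ℝ} {X Y : ℕ} {v w p : ℝ}

theorem mono (h : SF P X v) (hXY : X ≤ Y) : SF P Y v := by
  obtain ⟨d, rfl⟩ := Nat.exists_eq_add_of_le hXY
  clear hXY
  induction d with
  | zero => exact h
  | succ d ih => exact SF.pad ih

theorem of_mem (h : p ∈ P) : SF P 1 p := by
  have := SF.add (SF.zero (P := P)) h
  rwa [zero_add, zero_add] at this

theorem zero' (X : ℕ) : SF P X 0 := SF.zero.mono (Nat.zero_le X)

theorem plus (h : SF P X v) (h' : SF P Y w) : SF P (X + Y) (v + w) := by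
  induction h' with
  | zero => simpa using h
  | add _ hp ih =>
    have := SF.add ih hp
    rwa [add_assoc, add_assoc] at this
  | sub _ hp ih =>
    have := SF.sub ih hp
    rwa [add_assoc, add_sub_assoc] at this
  | pad _ ih => exact SF.pad ih

theorem neg (h : SF P X v) : SF P X (-v) := by
  induction h with
  | zero => simpa using SF.zero (P := P)
  | add _ hp ih =>
    have := SF.sub ih hp
    rwa [neg_add]
  | sub _ hp ih =>
    have := SF.add ih hp
    rwa [neg_sub, sub_eq_neg_add, add_comm, ← sub_eq_neg_add, ← neg_sub] at *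
  | pad _ ih => exact SF.pad ih

theorem nat (h : SF P X v) (a : ℕ) : SF P (a * X) ((a : ℝ) * v) := by
  induction a with
  | zero => simpa using SF.zero (P := P)
  | succ a ih =>
    have := plus ih h
    convert this using 1
    · ring
    · push_cast; ring

theorem int (h : SF P X v) (a : ℤ) : SF P (a.natAbs * X) ((a : ℝ) * v) := by
  rcases Int.natAbs_eq a with h1 | h1
  · have := nat h a.natAbs
    have e : (a : ℝ) = (a.natAbs : ℝ) := by
      conv_lhs => rw [h1]
      simp
    rw [e]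
    exact this
  · have := (nat h a.natAbs).neg
    have e : (a : ℝ) = -(a.natAbs : ℝ) := by
      conv_lhs => rw [h1]
      simp
    rw [e, neg_mul]
    exact this

theorem subset (h : SF P X v) (hPQ : P ⊆ Q) : SF Q X v := by
  induction h with
  | zero => exact SF.zero
  | add _ hp ih => exact SF.add ih (hPQ hp)
  | sub _ hp ih => exact SF.sub ih (hPQ hp)
  | pad _ ih => exact SF.pad ih

theorem mul_mem (h : SF P X v) (hp : p ∈ Q) (hPQ : ∀ a ∈ P, ∀ b ∈ Q, a * b ∈ R) :
    SF R X (v * p) := by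
  induction h with
  | zero => simpa using SF.zero (P := R)
  | add _ ha ih =>
    rw [add_mul]
    exact SF.add ih (hPQ _ ha _ hp)
  | sub _ ha ih =>
    rw [sub_mul]
    exact SF.sub ih (hPQ _ ha _ hp)
  | pad _ ih => exact SF.pad ih

theorem mul (h : SF P X v) (h' : SF Q Y w) (hPQ : ∀ a ∈ P, ∀ b ∈ Q, a * b ∈ R) :
    SF R (X * Y) (v * w) := by
  induction h' with
  | zero => simpa using SF.zero (P := R)
  | add _ hq ih =>
    rw [mul_add, mul_add, mul_one]
    exact plus ih (mul_mem h hq hPQ)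
  | sub _ hq ih =>
    rw [mul_sub, mul_add, mul_one, sub_eq_add_neg]
    exact plus ih (mul_mem h hq hPQ).neg
  | pad _ ih => exact ih.mono (Nat.mul_le_mul_left _ (Nat.le_succ _))

theorem sum {ι : Type*} (S : Finset ι) (f : ι → ℝ) (h : ∀ i ∈ S, SF P X (f i)) :
    SF P (S.card * X) (∑ i ∈ S, f i) := by
  classical
  induction S using Finset.induction_on with
  | empty => simpa using SF.zero (P := P)
  | insert a S ha ih =>
    rw [Finset.sum_insert ha, Finset.card_insert_of_notMem ha, add_mul, one_mul, add_comm]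
    rw [add_comm (f a), add_comm X]
    exact (ih fun i hi => h i (Finset.mem_insert_of_mem hi)).plus (h a (Finset.mem_insert_self a S))

/-- Graded products. -/
theorem prod {ι : Type*} (G : ℕ → Set ℝ) (h0 : (1 : ℝ) ∈ G 0)
    (hG : ∀ i j, ∀ a ∈ G i, ∀ b ∈ G j, a * b ∈ G (i + j)) (S : Finset ι) (c : ι → ℕ) (f : ι → ℝ)
    (h : ∀ i ∈ S, SF (G (c i)) Y (f i)) : SF (G (∑ i ∈ S, c i)) (Y ^ S.card) (∏ i ∈ S, f i) := by
  classical
  induction S using Finset.induction_on with
  | empty => simpa using SF.of_mem h0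
  | insert a S ha ih =>
    rw [Finset.prod_insert ha, Finset.sum_insert ha, Finset.card_insert_of_notMem ha, pow_succ,
      mul_comm (Y ^ _)]
    exact (h a (Finset.mem_insert_self a S)).mul (ih fun i hi => h i (Finset.mem_insert_of_mem hi))
      (hG _ _)

/-- Sums with different bounds. -/
theorem sum' {ι : Type*} (S : Finset ι) (f : ι → ℝ) (c : ι → ℕ) (h : ∀ i ∈ S, SF P (c i) (f i)) :
    SF P (∑ i ∈ S, c i) (∑ i ∈ S, f i) := by
  classical
  induction S using Finset.induction_on with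
  | empty => simpa using SF.zero (P := P)
  | insert a S ha ih =>
    rw [Finset.sum_insert ha, Finset.sum_insert ha]
    exact (h a (Finset.mem_insert_self a S)).plus (ih fun i hi => h i (Finset.mem_insert_of_mem hi))

/-- Coordinates. -/
theorem vec {N : ℕ} {W : ℕ → ℝ} (hW : ∀ p ∈ P, ∃ l < N, W l = p) (h : SF P X v) :
    ∃ y : ℕ → ℤ, ∑ l ∈ Finset.range N, (y l).natAbs ≤ X ∧
      v = ∑ l ∈ Finset.range N, (y l : ℝ) * W l := by
  classical
  have key : ∀ (y : ℕ → ℤ) (X : ℕ) (v : ℝ) (l : ℕ) (ε : ℤ), l < N → ε.natAbs ≤ 1 →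
      ∑ l ∈ Finset.range N, (y l).natAbs ≤ X → v = ∑ l ∈ Finset.range N, (y l : ℝ) * W l →
      ∃ y' : ℕ → ℤ, ∑ l ∈ Finset.range N, (y' l).natAbs ≤ X + 1 ∧
        v + (ε : ℝ) * W l = ∑ l ∈ Finset.range N, (y' l : ℝ) * W l := by
    intro y X v l ε hl hε h1 h2
    refine ⟨fun i => y i + if i = l then ε else 0, ?_, ?_⟩
    · calc ∑ i ∈ Finset.range N, (y i + if i = l then ε else 0).natAbs
          ≤ ∑ i ∈ Finset.range N, ((y i).natAbs + if i = l then ε.natAbs else 0) := by
            refine Finset.sum_le_sum fun i _ => (Int.natAbs_add_le _ _).trans ?_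
            split_ifs <;> simp
        _ = ∑ i ∈ Finset.range N, (y i).natAbs + ε.natAbs := by
            rw [Finset.sum_add_distrib, Finset.sum_ite_eq', if_pos (Finset.mem_range.2 hl)]
        _ ≤ X + 1 := add_le_add h1 hε
    · have e : ∀ i ∈ Finset.range N, ((y i + if i = l then ε else 0 : ℤ) : ℝ) * W i =
          (y i : ℝ) * W i + if i = l then (ε : ℝ) * W i else 0 := by
        intro i _
        split_ifs <;> push_cast <;> ring
      rw [Finset.sum_congr rfl e, Finset.sum_add_distrib, Finset.sum_ite_eq',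
        if_pos (Finset.mem_range.2 hl), h2]
  induction h with
  | zero => exact ⟨fun _ => 0, by simp, by simp⟩
  | @add X v p _ hp ih =>
    obtain ⟨y, h1, h2⟩ := ih
    obtain ⟨l, hl, rfl⟩ := hW _ hp
    have := key y X v l 1 hl (by simp) h1 h2
    simpa using this
  | @sub X v p _ hp ih =>
    obtain ⟨y, h1, h2⟩ := ih
    obtain ⟨l, hl, rfl⟩ := hW _ hp
    have := key y X v l (-1) hl (by simp) h1 h2
    simpa [sub_eq_add_neg] using this
  | pad _ ih =>
    obtain ⟨y, h1, h2⟩ := ih
    exact ⟨y, h1.trans (Nat.le_succ _), h2⟩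

/-- From coordinates. -/
theorem of_vec {N : ℕ} {W : ℕ → ℝ} (hW : ∀ l < N, W l ∈ P) (y : ℕ → ℤ) :
    SF P (∑ l ∈ Finset.range N, (y l).natAbs) (∑ l ∈ Finset.range N, (y l : ℝ) * W l) := by
  refine sum' _ _ _ fun l hl => ?_
  have := int (of_mem (hW l (Finset.mem_range.1 hl))) (y l)
  rwa [mul_one] at this

end SF

end Pool.Agent.TH71.PG
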